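import Mathlib
import Pool.Agent.Y584.Sing

set_option autoImplicit false

universe u

namespace Pool.Agent.Results.MP_9f71a8_co.CountableCofinality

/-- `P ∈ 𝒟(μ)`: the partially ordered set `P` contains no antichain (set of pairwise incomparable
elements) of cardinality `μ`. -/
def NoAntichain (μ : Cardinal.{u}) (P : Type u) [PartialOrder P] : Prop :=
  ¬ ∃ A : Set P, IsAntichain (· ≤ ·) A ∧ Cardinal.mk A = μ

/-- `P` is a union of fewer than `lam` ideals (`Order.Ideal`: nonempty up-directed initial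
segments). -/
def UnionOfFewer (lam : Cardinal.{u}) (P : Type u) [PartialOrder P] : Prop :=
  ∃ S : Set (Order.Ideal P), Cardinal.mk S < lam ∧ ∀ x : P, ∃ I ∈ S, x ∈ I

/-- `F μ` is the least cardinal `lam` such that every `P ∈ 𝒟(μ)` is a union of fewer than `lam`
ideals. -/
noncomputable def F (μ : Cardinal.{u}) : Cardinal.{u} :=
  sInf {lam | ∀ (P : Type u) [PartialOrder P], NoAntichain μ P → UnionOfFewer lam P}

theorem lt_F {κ : Cardinal.{u}} (hκ : κ.IsRegular)
    (h : ∃ (P : Type u) (_ : PartialOrder P), Cardinal.mk P = κ ∧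
      (∀ A : Set P, IsAntichain (· ≤ ·) A → Cardinal.mk A < κ) ∧
      ∀ I : Set P, I.Nonempty → DirectedOn (· ≤ ·) I → Cardinal.mk I < κ) : κ < F κ := by
  obtain ⟨P, instP, hPκ, hanti, hdir⟩ := h
  have hne : {lam : Cardinal.{u} | ∀ (P : Type u) [PartialOrder P],
      NoAntichain κ P → UnionOfFewer lam P}.Nonempty := by
    refine ⟨Order.succ (2 ^ κ), ?_⟩
    intro Q _ hQ
    obtain ⟨S, hS, hS2⟩ := Pool.Agent.Y584.Sc.exists_bound hκ.aleph0_le Q
      (Pool.Agent.Helper113.F.lt_of_noAntichain hQ)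
    exact ⟨S, Order.lt_succ_iff.2 hS, hS2⟩
  have hmem : F κ ∈ {lam : Cardinal.{u} | ∀ (P : Type u) [PartialOrder P],
      NoAntichain κ P → UnionOfFewer lam P} := csInf_mem hne
  have hP : NoAntichain κ P := by
    rintro ⟨A, hA, hA2⟩
    exact absurd hA2 (hanti A hA).ne
  obtain ⟨S, hS, hS2⟩ := hmem P hP
  by_contra hcon
  rw [not_lt] at hcon
  have hSκ : Cardinal.mk S < κ := hS.trans_le hcon
  have h1 : (Set.univ : Set P) ⊆ ⋃ I : S, (I.1 : Set P) := by
    intro x _
    obtain ⟨I, hI, hx⟩ := hS2 x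
    exact Set.mem_iUnion.2 ⟨⟨I, hI⟩, hx⟩
  have h2 := (Cardinal.card_iUnion_lt_iff_forall_of_isRegular hκ hSκ
    (t := fun I : S => (I.1 : Set P))).2 (fun I => hdir _ I.1.nonempty I.1.directed)
  have h3 := (Cardinal.mk_le_mk_of_subset h1).trans_lt h2
  rw [Cardinal.mk_univ, hPκ] at h3
  exact lt_irrefl _ h3

/-- Let `lam` be a cardinal of cofinality `ω` and `μ = lam⁺`.

(1) In ZFC, if `lam` is greater than the continuum, then `F(μ) ≥ μ⁺`.

(2) If `2 ^ lam = lam⁺` (for `lam = ω` this is CH), then `F(μ) = μ⁺`, and every `P ∈ 𝒟(μ)` is a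
union of fewer than `μ⁺` ideals. -/
theorem result (lam : Cardinal.{u}) (hcof : lam.ord.cof = Cardinal.aleph0) :
    ((2 : Cardinal.{u}) ^ Cardinal.aleph0.{u} < lam →
      Order.succ (Order.succ lam) ≤ F (Order.succ lam)) ∧
    ((2 : Cardinal.{u}) ^ lam = Order.succ lam →
      F (Order.succ lam) = Order.succ (Order.succ lam) ∧
      ∀ (P : Type u) [PartialOrder P], NoAntichain (Order.succ lam) P →
        UnionOfFewer (Order.succ (Order.succ lam)) P) := by
  have hinf : Cardinal.aleph0 ≤ lam := by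
    by_contra hcon
    rw [not_le] at hcon
    have h1 := (Ordinal.cof_ord_le lam).trans_lt hcon
    rw [hcof] at h1
    exact lt_irrefl _ h1
  have hκ : (Order.succ lam).IsRegular := Cardinal.isRegular_succ hinf
  refine ⟨fun hc => ?_, fun hpow => ?_⟩
  · exact Order.succ_le_of_lt (lt_F hκ (Pool.Agent.Y584.Lub.core_sing hcof hc))
  · have hup : ∀ (P : Type u) [PartialOrder P], NoAntichain (Order.succ lam) P →
        UnionOfFewer (Order.succ (Order.succ lam)) P := by
      intro P _ hP
      have hA := Pool.Agent.Helper113.F.lt_of_noAntichain hP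
      have hpw : ∀ c < Order.succ lam, (Order.succ lam) ^ c ≤ Order.succ lam := by
        intro c hc
        rw [← hpow, ← Cardinal.power_mul]
        exact Cardinal.power_le_power_left two_ne_zero
          ((mul_le_mul' le_rfl (Order.lt_succ_iff.1 hc)).trans (Cardinal.mul_eq_self hinf).le)
      obtain ⟨S, hS1, hS2⟩ := Pool.Agent.Helper113.F.ideals_of_covBy
        (Pool.Agent.Helper113.F.regular_cov hκ hpw hA)
      exact ⟨S, Order.lt_succ_of_le hS1, hS2⟩
    refine ⟨le_antisymm (csInf_le' hup) ?_, hup⟩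
    exact Order.succ_le_of_lt (lt_F hκ (Pool.Agent.Y584.St.core_omega hinf hcof hpow))

end Pool.Agent.Results.MP_9f71a8_co.CountableCofinality
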