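import Mathlib
import Pool.Agent.Y972.DI.Reg
import Pool.Agent.Y972.DI.Sharp

set_option autoImplicit false

/-!
# The least number of highly directed ideals needed to cover posets without large antichains
-/

universe u

namespace Pool.Agent.Results.MP_9f71a8_co.DirectedValues

/-- `P ∈ 𝒟(μ)`: the partially ordered set `P` contains no antichain (set of pairwise incomparable
elements) of cardinality `μ`. -/
def NoAntichain (μ : Cardinal.{u}) (P : Type u) [PartialOrder P] : Prop :=
  ¬ ∃ A : Set P, IsAntichain (· ≤ ·) A ∧ Cardinal.mk A = μ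

/-- `P` is a union of fewer than `lam` ideals (`Order.Ideal`: nonempty up-directed initial
segments). -/
def UnionOfFewer (lam : Cardinal.{u}) (P : Type u) [PartialOrder P] : Prop :=
  ∃ S : Set (Order.Ideal P), Cardinal.mk S < lam ∧ ∀ x : P, ∃ I ∈ S, x ∈ I

/-- `F μ` is the least cardinal `lam` such that every `P ∈ 𝒟(μ)` is a union of fewer than `lam`
ideals. -/
noncomputable def F (μ : Cardinal.{u}) : Cardinal.{u} :=
  sInf {lam | ∀ (P : Type u) [PartialOrder P], NoAntichain μ P → UnionOfFewer lam P}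

/-- The ideal `I` is `τ`-directed: every subset of `I` of cardinality less than `τ` has an upper
bound in `I`. (Every ideal is `ℵ₀`-directed.) -/
def IsDirected (τ : Cardinal.{u}) {P : Type u} [PartialOrder P] (I : Order.Ideal P) : Prop :=
  ∀ T : Set P, (∀ t ∈ T, t ∈ I) → Cardinal.mk T < τ → ∃ b ∈ I, ∀ t ∈ T, t ≤ b

/-- `P` is a union of fewer than `lam` ideals which are `τ`-directed. -/
def UnionOfFewerDirected (τ lam : Cardinal.{u}) (P : Type u) [PartialOrder P] : Prop :=
  ∃ S : Set (Order.Ideal P), (∀ I ∈ S, IsDirected τ I) ∧ Cardinal.mk S < lam ∧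
    ∀ x : P, ∃ I ∈ S, x ∈ I

/-- `FDirected τ μ` is the least cardinal `lam` such that every `P ∈ 𝒟(μ)` is a union of fewer
than `lam` ideals which are `τ`-directed. -/
noncomputable def FDirected (τ μ : Cardinal.{u}) : Cardinal.{u} :=
  sInf {lam | ∀ (P : Type u) [PartialOrder P], NoAntichain μ P → UnionOfFewerDirected τ lam P}

/-- `μ` is weakly compact: it is uncountable and inaccessible and satisfies the partition relation
`μ → (μ)²₂` (for uncountable `μ` the partition relation already implies inaccessibility). -/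
def WeaklyCompact (μ : Cardinal.{u}) : Prop :=
  μ.IsInaccessible ∧
    ∀ c : μ.ord.ToType → μ.ord.ToType → Prop, ∃ H : Set μ.ord.ToType, Cardinal.mk H = μ ∧
      ((∀ i ∈ H, ∀ j ∈ H, i < j → c i j) ∨ (∀ i ∈ H, ∀ j ∈ H, i < j → ¬ c i j))

/-- There is a `μ`-Souslin tree: a partial order of cardinality `μ` in which the predecessors of
every element are well-ordered and in which all chains and all antichains have cardinality less
than `μ`. -/
def HasSouslinTree (μ : Cardinal.{u}) : Prop :=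
  ∃ (T : Type u) (_ : PartialOrder T),
    (∀ t : T, IsChain (· ≤ ·) (Set.Iio t) ∧ (Set.Iio t).WellFoundedOn (· < ·)) ∧
    Cardinal.mk T = μ ∧
    (∀ C : Set T, IsChain (· ≤ ·) C → Cardinal.mk C < μ) ∧
    (∀ A : Set T, IsAntichain (· ≤ ·) A → Cardinal.mk A < μ)

/-- The generalized continuum hypothesis. -/
def GCH : Prop := ∀ κ : Cardinal.{u}, Cardinal.aleph0 ≤ κ → (2 : Cardinal.{u}) ^ κ = Order.succ κ

theorem lower {μ lam : Cardinal.{u}}
    (hlam : ∀ (P : Type u) [PartialOrder P], NoAntichain μ P → UnionOfFewer lam P) : μ ≤ lam := by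
  by_contra hlt
  rw [not_le] at hlt
  have h2 : NoAntichain μ (Pool.Agent.Helper113.F.Disc lam.out) := by
    rintro ⟨A, _, hA⟩
    have h3 : Cardinal.mk A ≤ lam := by
      calc Cardinal.mk A ≤ Cardinal.mk (Pool.Agent.Helper113.F.Disc lam.out) :=
            Cardinal.mk_set_le A
        _ = Cardinal.mk lam.out := rfl
        _ = lam := Cardinal.mk_out lam
    rw [hA] at h3
    exact absurd h3 (not_le.2 hlt)
  obtain ⟨S, hS1, hS2⟩ := hlam (Pool.Agent.Helper113.F.Disc lam.out) h2
  exact absurd (Pool.Agent.Helper113.F.disc_lower S hS2) (not_le.2 hS1)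

theorem toPlain {τ lam : Cardinal.{u}} {P : Type u} [PartialOrder P]
    (h : UnionOfFewerDirected τ lam P) : UnionOfFewer lam P := by
  obtain ⟨S, -, h2, h3⟩ := h
  exact ⟨S, h2, h3⟩

theorem UnionOfFewerDirected.mono {τ τ' lam lam' : Cardinal.{u}} {P : Type u} [PartialOrder P]
    (h : UnionOfFewerDirected τ' lam P) (hτ : τ ≤ τ') (hl : lam ≤ lam') :
    UnionOfFewerDirected τ lam' P := by
  obtain ⟨S, h1, h2, h3⟩ := h
  exact ⟨S, fun I hI T hT hc => h1 I hI T hT (hc.trans_le hτ), h2.trans_le hl, h3⟩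

theorem value {μ lam : Cardinal.{u}}
    (h1 : ∀ (P : Type u) [PartialOrder P], NoAntichain μ P → UnionOfFewer lam P)
    (h2 : ∀ lam' : Cardinal.{u},
      (∀ (P : Type u) [PartialOrder P], NoAntichain μ P → UnionOfFewer lam' P) → lam ≤ lam') :
    F μ = lam :=
  le_antisymm (csInf_le' h1) (le_csInf ⟨lam, h1⟩ h2)

theorem valueD {τ μ lam : Cardinal.{u}}
    (h1 : ∀ (P : Type u) [PartialOrder P], NoAntichain μ P → UnionOfFewerDirected τ lam P)
    (h2 : ∀ lam' : Cardinal.{u},
      (∀ (P : Type u) [PartialOrder P], NoAntichain μ P → UnionOfFewerDirected τ lam' P) →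
        lam ≤ lam') :
    FDirected τ μ = lam :=
  le_antisymm (csInf_le' h1) (le_csInf ⟨lam, h1⟩ h2)

/-- the values if every `P ∈ 𝒟(μ)` is a union of fewer than `μ` ideals which are `τ`-directed -/
theorem both {τ μ : Cardinal.{u}}
    (h : ∀ (P : Type u) [PartialOrder P], NoAntichain μ P → UnionOfFewerDirected τ μ P) :
    F μ = μ ∧ FDirected τ μ = μ :=
  ⟨value (fun P _ hP => toPlain (h P hP)) (fun _ h' => lower h'),
    valueD h (fun _ h' => lower (fun P _ hP => toPlain (h' P hP)))⟩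

theorem singular {μ τ : Cardinal.{u}} (hμ : μ.IsSingular) (hsl : μ.IsStrongLimit) (hτ : τ < μ)
    (P : Type u) [PartialOrder P] (hP : NoAntichain μ P) : UnionOfFewerDirected τ μ P := by
  obtain ⟨S, hS1, hS2, hS3⟩ := Pool.Agent.Y972.DI.final_t hμ hsl hτ hP
  exact ⟨S, fun I hI T hT hc => hS1 I hI T hT hc.le, hS2, hS3⟩

theorem weakly {μ : Cardinal.{u}} (h : μ = Cardinal.aleph0 ∨ WeaklyCompact μ)
    (P : Type u) [PartialOrder P] (hP : NoAntichain μ P) : UnionOfFewerDirected μ μ P := by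
  have hA := Pool.Agent.Helper113.F.lt_of_noAntichain hP
  obtain ⟨hinf, JJ, h1, h2, h3⟩ : Cardinal.aleph0 ≤ μ ∧ ∃ JJ : Set (Set P),
      Cardinal.mk JJ < μ ∧ (∀ J ∈ JJ, Pool.Agent.Y972.DI.DirL μ J) ∧
      (Set.univ : Set P) ⊆ Set.sUnion JJ := by
    rcases h with rfl | h
    · exact ⟨le_rfl, Pool.Agent.Y972.DI.weakly_cov_l Cardinal.isRegular_aleph0
          Cardinal.isStrongLimit_aleph0
          (Pool.Agent.Helper113.F.pow_of_strongLimit Cardinal.isRegular_aleph0
            Cardinal.isStrongLimit_aleph0.isStrongPrelimit)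
          Pool.Agent.Helper113.F.limitProp_aleph0 hA⟩
    · exact ⟨h.1.isRegular.aleph0_le, Pool.Agent.Y972.DI.weakly_cov_l h.1.isRegular
          h.1.isStrongLimit
          (Pool.Agent.Helper113.F.pow_of_strongLimit h.1.isRegular
            h.1.isStrongLimit.isStrongPrelimit)
          (Pool.Agent.Helper113.F.limitProp_of_arrow h.1.isRegular h.1.isStrongLimit h.2) hA⟩
  obtain ⟨S, hS1, hS2, hS3⟩ := Pool.Agent.Y972.DI.ideals_of_covL hinf JJ h2 h3
  exact ⟨S, fun I hI T hT hc => hS1 I hI T hT hc, hS2.trans_lt h1, hS3⟩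

theorem regular {μ : Cardinal.{u}} (hreg : μ.IsRegular) (hpow : ∀ c < μ, μ ^ c ≤ μ)
    (P : Type u) [PartialOrder P] (hP : NoAntichain μ P) :
    UnionOfFewerDirected μ (Order.succ μ) P := by
  have hA := Pool.Agent.Helper113.F.lt_of_noAntichain hP
  obtain ⟨JJ, h1, h2, h3⟩ := Pool.Agent.Y972.DI.regular_cov_l hreg hpow hA
  obtain ⟨S, hS1, hS2, hS3⟩ := Pool.Agent.Y972.DI.ideals_of_covL hreg.aleph0_le JJ h2 h3
  exact ⟨S, fun I hI T hT hc => hS1 I hI T hT hc, Order.lt_succ_of_le (hS2.trans h1), hS3⟩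

theorem souslin {μ lam : Cardinal.{u}} (hreg : μ.IsRegular) (h : HasSouslinTree μ)
    (hlam : ∀ (P : Type u) [PartialOrder P], NoAntichain μ P → UnionOfFewer lam P) :
    Order.succ μ ≤ lam := by
  obtain ⟨T, _, h1, h2, h3, h4⟩ := h
  obtain ⟨S, hS1, hS2⟩ := hlam T (by
    rintro ⟨A, hA1, hA2⟩
    exact absurd hA2 (h4 A hA1).ne)
  have h5 := Pool.Agent.Helper113.F.souslin_lower hreg (fun t => (h1 t).1) h2 h3 S hS2
  exact Order.succ_le_of_lt (h5.trans_lt hS1)

theorem sharp {μ : Cardinal.{u}} (hμ : μ.IsSingular) :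
    ∃ (P : Type u) (_ : PartialOrder P), NoAntichain μ P ∧ ¬ UnionOfFewerDirected μ μ P := by
  obtain ⟨P, inst, h1, h2⟩ := Pool.Agent.Y972.DI.sharp hμ
  refine ⟨P, inst, h1, ?_⟩
  rintro ⟨S, hS1, hS2, hS3⟩
  exact absurd (h2 S (fun I hI T hT hc => hS1 I hI T hT hc) hS3) (not_le.2 hS2)

open Classical in
/-- **The number of `τ`-directed ideals needed to cover the members of `𝒟(μ)`.**

(1) If `μ` is `ℵ₀` or weakly compact, every `P ∈ 𝒟(μ)` is a union of fewer than `μ` ideals which
are `μ`-directed; `F(μ) = F_τ(μ) = μ` for all `τ ≤ μ`.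

(2) If `μ` is a singular strong limit and `τ < μ`, every `P ∈ 𝒟(μ)` is a union of fewer than `μ`
ideals which are `τ`-directed; `F(μ) = F_τ(μ) = μ`.

(3) This is optimal: for every singular `μ`, some `P ∈ 𝒟(μ)` is not a union of fewer than `μ`
ideals which are `μ`-directed.

(4) If `μ` is regular and `μ ^ c ≤ μ` for all `c < μ`, then every `P ∈ 𝒟(μ)` is a union of at most
`μ` ideals which are `μ`-directed; for `τ ≤ μ`, `F_τ(μ)` is `μ` or `μ⁺`, every `P ∈ 𝒟(μ)` is a
union of fewer than `F_τ(μ)` `τ`-directed ideals, and `F(μ) = F_τ(μ) = μ⁺` if there is a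
`μ`-Souslin tree.

(5) Hence, assuming GCH and that every regular uncountable cardinal is weakly compact or carries a
Souslin tree (both hold if `V = L`), `F(μ)` and `F_τ(μ)` are determined for all infinite `μ` and
all `τ < μ` (and for `τ = μ` if `μ` is regular): both are `μ` if `μ` is `ℵ₀`, singular or weakly
compact, and `μ⁺` otherwise. -/
theorem result :
    (∀ μ : Cardinal.{u}, (μ = Cardinal.aleph0 ∨ WeaklyCompact μ) →
      (∀ (P : Type u) [PartialOrder P], NoAntichain μ P → UnionOfFewerDirected μ μ P) ∧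
      F μ = μ ∧ ∀ τ : Cardinal.{u}, τ ≤ μ → FDirected τ μ = μ) ∧
    (∀ μ : Cardinal.{u}, μ.IsSingular → μ.IsStrongLimit →
      F μ = μ ∧ ∀ τ : Cardinal.{u}, τ < μ →
        (∀ (P : Type u) [PartialOrder P], NoAntichain μ P → UnionOfFewerDirected τ μ P) ∧
        FDirected τ μ = μ) ∧
    (∀ μ : Cardinal.{u}, μ.IsSingular →
      ∃ (P : Type u) (_ : PartialOrder P), NoAntichain μ P ∧ ¬ UnionOfFewerDirected μ μ P) ∧
    (∀ μ : Cardinal.{u}, μ.IsRegular → (∀ c < μ, μ ^ c ≤ μ) →
      (∀ (P : Type u) [PartialOrder P], NoAntichain μ P →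
        UnionOfFewerDirected μ (Order.succ μ) P) ∧
      ∀ τ : Cardinal.{u}, τ ≤ μ →
        (∀ (P : Type u) [PartialOrder P], NoAntichain μ P →
          UnionOfFewerDirected τ (FDirected τ μ) P) ∧
        (FDirected τ μ = μ ∨ FDirected τ μ = Order.succ μ) ∧
        (HasSouslinTree μ → F μ = Order.succ μ ∧ FDirected τ μ = Order.succ μ)) ∧
    (GCH.{u} →
      (∀ μ : Cardinal.{u}, μ.IsRegular → Cardinal.aleph0 < μ →
        WeaklyCompact μ ∨ HasSouslinTree μ) →
      ∀ μ : Cardinal.{u}, Cardinal.aleph0 ≤ μ →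
      ∀ τ : Cardinal.{u}, (τ < μ ∨ τ = μ ∧ μ.IsRegular) →
        (∀ (P : Type u) [PartialOrder P], NoAntichain μ P →
          UnionOfFewerDirected τ (FDirected τ μ) P) ∧
        FDirected τ μ = F μ ∧
        F μ = if μ = Cardinal.aleph0 ∨ μ.IsSingular ∨ WeaklyCompact μ then μ
          else Order.succ μ) := by
  have h1 : ∀ μ : Cardinal.{u}, (μ = Cardinal.aleph0 ∨ WeaklyCompact μ) →
      (∀ (P : Type u) [PartialOrder P], NoAntichain μ P → UnionOfFewerDirected μ μ P) ∧
      F μ = μ ∧ ∀ τ : Cardinal.{u}, τ ≤ μ → FDirected τ μ = μ := by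
    intro μ h
    exact ⟨fun P _ hP => weakly h P hP, (both (fun P _ hP => weakly h P hP)).1, fun τ hτ =>
      (both (τ := τ) (fun P _ hP => (weakly h P hP).mono hτ le_rfl)).2⟩
  have h2 : ∀ μ : Cardinal.{u}, μ.IsSingular → μ.IsStrongLimit →
      F μ = μ ∧ ∀ τ : Cardinal.{u}, τ < μ →
        (∀ (P : Type u) [PartialOrder P], NoAntichain μ P → UnionOfFewerDirected τ μ P) ∧
        FDirected τ μ = μ := by
    intro μ hμ hsl
    exact ⟨(both (fun P _ hP => singular hμ hsl hμ.pos P hP)).1, fun τ hτ =>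
      ⟨fun P _ hP => singular hμ hsl hτ P hP, (both (fun P _ hP => singular hμ hsl hτ P hP)).2⟩⟩
  have h4 : ∀ μ : Cardinal.{u}, μ.IsRegular → (∀ c < μ, μ ^ c ≤ μ) →
      (∀ (P : Type u) [PartialOrder P], NoAntichain μ P →
        UnionOfFewerDirected μ (Order.succ μ) P) ∧
      ∀ τ : Cardinal.{u}, τ ≤ μ →
        (∀ (P : Type u) [PartialOrder P], NoAntichain μ P →
          UnionOfFewerDirected τ (FDirected τ μ) P) ∧
        (FDirected τ μ = μ ∨ FDirected τ μ = Order.succ μ) ∧
        (HasSouslinTree μ → F μ = Order.succ μ ∧ FDirected τ μ = Order.succ μ) := by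
    intro μ hreg hpow
    refine ⟨fun P _ hP => regular hreg hpow P hP, ?_⟩
    intro τ hτ
    have hup : ∀ (P : Type u) [PartialOrder P], NoAntichain μ P →
        UnionOfFewerDirected τ (Order.succ μ) P :=
      fun P _ hP => (regular hreg hpow P hP).mono hτ le_rfl
    have hS : HasSouslinTree μ → F μ = Order.succ μ ∧ FDirected τ μ = Order.succ μ := fun hS =>
      ⟨value (fun P _ hP => toPlain (hup P hP)) (fun _ h => souslin hreg hS h),
        valueD hup (fun _ h => souslin hreg hS (fun P _ hP => toPlain (h P hP)))⟩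
    by_cases hc : ∀ (P : Type u) [PartialOrder P], NoAntichain μ P → UnionOfFewerDirected τ μ P
    · have hF : FDirected τ μ = μ := (both hc).2
      refine ⟨?_, Or.inl hF, hS⟩
      rw [hF]
      exact hc
    · have hF : FDirected τ μ = Order.succ μ := by
        refine valueD hup ?_
        intro lam' h
        refine Order.succ_le_of_lt (lt_of_le_of_ne (lower (fun P _ hP => toPlain (h P hP))) ?_)
        rintro rfl
        exact hc h
      refine ⟨?_, Or.inr hF, hS⟩
      rw [hF]
      exact hup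
  refine ⟨h1, h2, fun μ hμ => sharp hμ, h4, ?_⟩
  intro gch hL μ hinf τ hτ
  rcases Cardinal.isRegular_or_isSingular hinf with hreg | hsing
  · have hτ' : τ ≤ μ := by
      rcases hτ with h | h
      · exact h.le
      · exact h.1.le
    have hns : ¬ μ.IsSingular := fun h => h.not_isRegular hreg
    obtain ⟨-, h6⟩ := h4 μ hreg (Pool.Agent.Helper113.F.pow_of_gch hreg gch)
    obtain ⟨h7, -, h8⟩ := h6 τ hτ'
    refine ⟨h7, ?_⟩
    by_cases hc : μ = Cardinal.aleph0 ∨ WeaklyCompact μ
    · obtain ⟨-, h9, h10⟩ := h1 μ hc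
      have hc' : μ = Cardinal.aleph0 ∨ μ.IsSingular ∨ WeaklyCompact μ := by
        rcases hc with h | h
        · exact Or.inl h
        · exact Or.inr (Or.inr h)
      rw [if_pos hc', h9, h10 τ hτ']
      exact ⟨rfl, rfl⟩
    · push Not at hc
      have hS := (hL μ hreg (lt_of_le_of_ne hinf (Ne.symm hc.1))).resolve_left hc.2
      have hc' : ¬ (μ = Cardinal.aleph0 ∨ μ.IsSingular ∨ WeaklyCompact μ) := by
        rintro (h | h | h)
        · exact hc.1 h
        · exact hns h
        · exact hc.2 h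
      rw [if_neg hc', (h8 hS).1, (h8 hS).2]
      exact ⟨rfl, rfl⟩
  · have hτ' : τ < μ := by
      rcases hτ with h | h
      · exact h
      · exact absurd h.2 hsing.not_isRegular
    obtain ⟨h9, h10⟩ := h2 μ hsing (Pool.Agent.Helper113.F.strongLimit_of_gch gch hsing)
    obtain ⟨h11, h12⟩ := h10 τ hτ'
    rw [if_pos (Or.inr (Or.inl hsing)), h9, h12]
    exact ⟨h11, rfl, rfl⟩

end Pool.Agent.Results.MP_9f71a8_co.DirectedValues
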